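import Pool.Agent.H7.JB.Stmts
import Pool.Agent.H15.HZ.LOQ

/-!
# Row LOG of the board `jb14` (MP_fd41b2_co): the local inequality with debts
(modified copy of H15/HZ/LOQ.lean, whose lemmas are used)
-/

set_option autoImplicit false

open Finset

namespace Pool.JB7

open Pool.Agent.H23.KT Pool.Agent.H46.KW Pool.KQ Pool.GT7 Pool.GU7 Pool.HZ7

/-- The four bounds used for one graph. -/
theorem logOne (h1 : GCGStmt) (h2 : MLGStmt) (h3 : EDUStmt) (h4 : SPXStmt) (h6 : TRVStmt)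
    (p r : ℕ) (hz : PrG p r) (C ε f C' : ℝ) (hε : 0 < ε) (hf : 0 < f)
    (hf2 : f * (C * ((p : ℝ) + 3) ^ 2) ≤ ε / 16) (hC' : 0 < C') (e η : ℝ) (he : 0 ≤ e)
    (hη0 : 0 ≤ η) (hη1 : η ≤ 1) (hη2 : η * (((p : ℝ) + 3) * (2 * C')) ≤ ε / 8)
    (hη3 : η * C ≤ ε / 8)
    (hη4 : (1 + e) ^ (p + 3) ≤ 1 + η) (hη5 : (1 + e) ^ (p + 2) ≤ 1 + η)
    (a : ℕ) (ha1 : 1 ≤ a) (har : r ≤ a)
    (ha2 : ((p : ℝ) + 3) * r * C' * ((p : ℝ) + 4) ^ (p + 2) ≤ ε * a / 8)
    (ha3 : ((r : ℝ) + 2 * C') ^ 2 + C' ^ 2 ≤ ε * a / 8)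
    {V : Type} [DecidableEq V] (G : SimpleGraph V)
    (W : Finset V) (P : Fin (p + 3) → Finset V) (U U₀ : Finset V) (hU₀ : U₀ ⊆ U)
    (hS : Stq G p a e f C C' W P U) (hW : W.card ≤ (p + 3) * a + r)
    (hW2 : (((p + 3) * a + r : ℕ) : ℝ) ≤ W.card + C')
    (hZ : ∀ z ∈ U \ U₀, ((nb G (un P) z).card : ℝ) ≤
      ((p : ℝ) + 2) * (1 - ph p r) * a + Mz p r a * TZ G p r (un P) z + ε / (8 * C') * a) :
    Mz p r a * ∑ L ∈ clq G W (p + 3), min (r : ℝ) (XX G p r a W L) +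
        (a : ℝ) / 2 * ((((p + 3) * a + r : ℕ) : ℝ) - W.card) + s2 p * a * U₀.card ≤
      df G p 0 r a W + ∑ z ∈ U₀, ndz G p r a (un P) z + ε * a := by
  obtain ⟨-, hφ0, hφ1, hφ2, -, -⟩ := h1 p r hz
  have hr1 : 1 ≤ r := by have := hz.gr; omega
  have hrp := hz.rp
  obtain ⟨c1, c2⟩ := loqCard G P W U hS.par hS.disU hS.cov
  have hM0 := loqM0 p r a hφ0
  have hM := loqM p r a ha1
  have haR : (1 : ℝ) ≤ a := by exact_mod_cast ha1
  have c1R : (W.card : ℝ) = U.card + (un P).card := by exact_mod_cast c1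
  have hWR : (W.card : ℝ) ≤ (((p + 3) * a + r : ℕ) : ℝ) := by exact_mod_cast hW
  have hp0 : (0 : ℝ) ≤ p := Nat.cast_nonneg _
  have hr0 : (0 : ℝ) ≤ r := Nat.cast_nonneg _
  have hUC := hS.cU
  have hU0 : (0 : ℝ) ≤ U.card := Nat.cast_nonneg _
  -- the number `x`
  set x : ℕ := (p + 3) * a + r - (un P).card with hxdef
  have hxle : (un P).card ≤ (p + 3) * a + r := by omega
  have hx : (x : ℝ) = (((p + 3) * a + r : ℕ) : ℝ) - (un P).card := by
    rw [hxdef, Nat.cast_sub hxle]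
  have hx2 : (x : ℝ) = U.card + ((((p + 3) * a + r : ℕ) : ℝ) - W.card) := by
    rw [hx, c1R]; ring
  have hx0 : (0 : ℝ) ≤ x := Nat.cast_nonneg _
  have hxC : (x : ℝ) ≤ 2 * C' := by rw [hx2]; linarith
  -- SPX
  have s1 := h4 G p r a W P U hS.par hS.disU hS.cov
  rw [sum_sub_distrib, sum_add_distrib, sum_const, nsmul_eq_mul, sum_comm, ← hx] at s1
  have hN := loqN h6 G p a e P hS.par hS.hi
  rw [kc_eq] at hN
  -- the terms
  have t1 : Mz p r a * (((clq G (un P) (p + 3)).card : ℝ) * x) ≤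
      ((p : ℝ) + 2) * ph p r * a * x + ε * a / 8 := by
    have u1 : Mz p r a * ((clq G (un P) (p + 3)).card : ℝ) ≤
        Mz p r a * ((1 + e) * a) ^ (p + 3) := mul_le_mul_of_nonneg_left hN hM0
    have u2 : Mz p r a * ((1 + e) * a) ^ (p + 3) =
        ((p : ℝ) + 2) * ph p r * a * (1 + e) ^ (p + 3) := by
      rw [mul_pow, ← hM]; ring
    have u3 : ((p : ℝ) + 2) * ph p r * a * (1 + e) ^ (p + 3) ≤
        ((p : ℝ) + 2) * ph p r * a * (1 + η) :=
      mul_le_mul_of_nonneg_left hη4 (by positivity)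
    have u4 : Mz p r a * ((clq G (un P) (p + 3)).card : ℝ) * x ≤
        ((p : ℝ) + 2) * ph p r * a * (1 + η) * x :=
      mul_le_mul_of_nonneg_right (by linarith) hx0
    have u5 : ((p : ℝ) + 2) * ph p r ≤ ((p : ℝ) + 2) * 1 :=
      mul_le_mul_of_nonneg_left hφ1.le (by positivity)
    have u6 : ((p : ℝ) + 2) * ph p r * x ≤ ((p : ℝ) + 2) * 1 * (2 * C') :=
      mul_le_mul u5 hxC hx0 (by positivity)
    have u7 : ((p : ℝ) + 2) * 1 * (2 * C') ≤ ((p : ℝ) + 3) * (2 * C') :=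
      mul_le_mul_of_nonneg_right (by linarith) (by positivity)
    have u8 : η * (((p : ℝ) + 2) * ph p r * x) ≤ ε / 8 :=
      (mul_le_mul_of_nonneg_left (u6.trans u7) hη0).trans hη2
    have u9 : η * (((p : ℝ) + 2) * ph p r * x) * a ≤ ε / 8 * a :=
      mul_le_mul_of_nonneg_right u8 (by positivity)
    have u10 : Mz p r a * (((clq G (un P) (p + 3)).card : ℝ) * x) =
        Mz p r a * ((clq G (un P) (p + 3)).card : ℝ) * x := (mul_assoc _ _ _).symm
    have u11 : ((p : ℝ) + 2) * ph p r * a * (1 + η) * x =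
        ((p : ℝ) + 2) * ph p r * a * x + η * (((p : ℝ) + 2) * ph p r * x) * a := by ring
    rw [u10]
    linarith
  have t2 : Mz p r a * ∑ L ∈ clq G (un P) (p + 3), mm G p r (un P) L ≤
      (tot G P : ℝ) / 2 + ε * a / 8 := by
    have v1 := h2 G p 0 r a e f P ⟨Nat.zero_le _, hr1, hrp⟩ he hf.le hS.par hS.hi hS.mis
    have v2 := mul_le_mul_of_nonneg_left v1 hM0
    have v3 : Mz p r a * (tot G P * ((1 + e) * a) ^ (p + 2) *
        ((r : ℝ) / (((p : ℝ) + 3 - r) * ((p : ℝ) + 2)) + ((p : ℝ) + 3) / 2 * f)) =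
        tot G P * (1 + e) ^ (p + 2) * (((p : ℝ) + 2) * ph p r *
          ((r : ℝ) / (((p : ℝ) + 3 - r) * ((p : ℝ) + 2))) +
          ((p : ℝ) + 2) * ph p r * (((p : ℝ) + 3) / 2 * f)) := by
      rw [mul_pow, ← hM]; ring
    rw [v3, loqHalf p r hr1 hrp] at v2
    have v4 : ((p : ℝ) + 2) * ph p r * (((p : ℝ) + 3) / 2 * f) ≤
        1 / 2 * (((p : ℝ) + 3) ^ 2 * f) := by
      have w1 : ((p : ℝ) + 2) * ph p r ≤ ((p : ℝ) + 3) * 1 :=
        mul_le_mul (by linarith) hφ1.le hφ0.le (by positivity)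
      have w2 := mul_le_mul_of_nonneg_right w1
        (show 0 ≤ ((p : ℝ) + 3) / 2 * f by positivity)
      refine w2.trans (le_of_eq (by ring))
    have v5 : (tot G P : ℝ) ≤ C * a := hS.tot
    have v6 : (0 : ℝ) ≤ tot G P := Nat.cast_nonneg _
    have v7 : (tot G P : ℝ) * (1 + e) ^ (p + 2) ≤ tot G P * (1 + η) :=
      mul_le_mul_of_nonneg_left hη5 v6
    have v8 : (tot G P : ℝ) * (1 + e) ^ (p + 2) * (1 / 2 +
          ((p : ℝ) + 2) * ph p r * (((p : ℝ) + 3) / 2 * f)) ≤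
        tot G P * (1 + η) * (1 / 2 + 1 / 2 * (((p : ℝ) + 3) ^ 2 * f)) :=
      mul_le_mul v7 (by linarith) (by positivity) (by positivity)
    have v9 : (tot G P : ℝ) * (1 + η) * (1 / 2 + 1 / 2 * (((p : ℝ) + 3) ^ 2 * f)) ≤
        (tot G P : ℝ) / 2 + tot G P * (η / 2 + ((p : ℝ) + 3) ^ 2 * f) := by
      have w1 : 0 ≤ (tot G P : ℝ) * (((p : ℝ) + 3) ^ 2 * f) * (1 - η) :=
        mul_nonneg (by positivity) (by linarith)
      have w2 : (tot G P : ℝ) / 2 + tot G P * (η / 2 + ((p : ℝ) + 3) ^ 2 * f) -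
          (tot G P : ℝ) * (1 + η) * (1 / 2 + 1 / 2 * (((p : ℝ) + 3) ^ 2 * f)) =
          1 / 2 * ((tot G P : ℝ) * (((p : ℝ) + 3) ^ 2 * f) * (1 - η)) := by ring
      linarith
    have v10 : (tot G P : ℝ) * (η / 2 + ((p : ℝ) + 3) ^ 2 * f) ≤
        C * a * (η / 2 + ((p : ℝ) + 3) ^ 2 * f) :=
      mul_le_mul_of_nonneg_right v5 (by positivity)
    have v11 : C * a * (η / 2 + ((p : ℝ) + 3) ^ 2 * f) ≤ ε * a / 8 := by
      have w1 : C * (η / 2 + ((p : ℝ) + 3) ^ 2 * f) ≤ ε / 8 := by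
        have k1 : C * (η / 2 + ((p : ℝ) + 3) ^ 2 * f) =
            η * C / 2 + f * (C * ((p : ℝ) + 3) ^ 2) := by ring
        linarith
      have w2 := mul_le_mul_of_nonneg_right w1 (show (0 : ℝ) ≤ a by positivity)
      have w3 : C * a * (η / 2 + ((p : ℝ) + 3) ^ 2 * f) =
          C * (η / 2 + ((p : ℝ) + 3) ^ 2 * f) * a := by ring
      have w4 : ε / 8 * a = ε * a / 8 := by ring
      rw [w3, ← w4]
      exact w2
    linarith
  have t3 : Mz p r a * ((r : ℝ) * U.card * (W.card : ℝ) ^ (p + 2)) ≤ ε * a / 8 := by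
    have w0 : (((p + 3) * a + r : ℕ) : ℝ) ≤ ((p : ℝ) + 4) * a := by
      have : (r : ℝ) ≤ a := by exact_mod_cast har
      push_cast; nlinarith
    have w1 : (W.card : ℝ) ^ (p + 2) ≤ (((p : ℝ) + 4) * a) ^ (p + 2) :=
      pow_le_pow_left₀ (Nat.cast_nonneg _) (hWR.trans w0) _
    have w2 : (r : ℝ) * U.card * (W.card : ℝ) ^ (p + 2) ≤
        r * C' * (((p : ℝ) + 4) * a) ^ (p + 2) :=
      mul_le_mul (mul_le_mul_of_nonneg_left hUC hr0) w1 (by positivity) (by positivity)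
    have w3 := mul_le_mul_of_nonneg_left w2 hM0
    have w4 : Mz p r a * (r * C' * (((p : ℝ) + 4) * a) ^ (p + 2)) =
        ((p : ℝ) + 2) * ph p r * (r * C' * ((p : ℝ) + 4) ^ (p + 2)) := by
      rw [mul_pow, ← hM]; ring
    have w5 : ((p : ℝ) + 2) * ph p r * (r * C' * ((p : ℝ) + 4) ^ (p + 2)) ≤
        ((p : ℝ) + 3) * (r * C' * ((p : ℝ) + 4) ^ (p + 2)) :=
      mul_le_mul_of_nonneg_right ((mul_le_mul_of_nonneg_left hφ1.le (by positivity)).trans
        (by linarith)) (by positivity)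
    have w6 : ((p : ℝ) + 3) * (r * C' * ((p : ℝ) + 4) ^ (p + 2)) =
        ((p : ℝ) + 3) * r * C' * ((p : ℝ) + 4) ^ (p + 2) := by ring
    linarith
  -- edges
  have e1' := h3.1 G p W P U hS.par hS.disU hS.cov
  have e2' := h3.2 p a r x (sz P) hrp (by rw [← c2]; omega)
  have e3 : df G p 0 r a W = (TT (p + 3) 2 a r : ℝ) - kc G W 2 := rfl
  have t4 : (x : ℝ) * (((p : ℝ) + 2) * a) - (((r : ℝ) + x) ^ 2 + (U.card : ℝ) ^ 2) +
      (tot G P : ℝ) / 2 - ∑ z ∈ U, ((nb G (un P) z).card : ℝ) ≤ df G p 0 r a W := by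
    rw [e3]; linarith
  have t5 : ((r : ℝ) + x) ^ 2 + (U.card : ℝ) ^ 2 ≤ ε * a / 8 := by
    have w1 : ((r : ℝ) + x) ^ 2 ≤ ((r : ℝ) + 2 * C') ^ 2 :=
      pow_le_pow_left₀ (by positivity) (by linarith) _
    have w2 : (U.card : ℝ) ^ 2 ≤ C' ^ 2 := pow_le_pow_left₀ hU0 hUC _
    linarith
  -- exceptional vertices
  have t6 : ∑ z ∈ U, ((nb G (un P) z).card : ℝ) +
      (s2 p * a * U₀.card - ∑ z ∈ U₀, ndz G p r a (un P) z) ≤
      U.card * (((p : ℝ) + 2) * (1 - ph p r) * a) +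
        Mz p r a * ∑ z ∈ U, TZ G p r (un P) z + ε * a / 8 := by
    have w1 := sum_le_sum hZ
    have w2 : ∑ z ∈ U₀, ((nb G (un P) z).card : ℝ) ≤ ∑ z ∈ U₀,
        (((p : ℝ) + 2) * (1 - ph p r) * a + Mz p r a * TZ G p r (un P) z +
          (ndz G p r a (un P) z - s2 p * a)) := by
      refine sum_le_sum fun z _ => ?_
      have k1 : ((nb G (un P) z).card : ℝ) - ((p : ℝ) + 2) * (1 - ph p r) * a -
          Mz p r a * TZ G p r (un P) z + s2 p * a ≤ ndz G p r a (un P) z := by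
        unfold ndz
        exact le_max_right _ _
      linarith
    rw [sum_add_distrib, sum_add_distrib, sum_const, sum_const, nsmul_eq_mul,
      nsmul_eq_mul, ← mul_sum] at w1
    rw [sum_add_distrib, sum_add_distrib, sum_sub_distrib, sum_const, sum_const, nsmul_eq_mul,
      nsmul_eq_mul, ← mul_sum] at w2
    have w3 : ((U \ U₀).card : ℝ) * (ε / (8 * C') * a) ≤ ε * a / 8 := by
      have k0 : ((U \ U₀).card : ℝ) ≤ U.card := by
        exact_mod_cast card_le_card (sdiff_subset)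
      have k1 : ((U \ U₀).card : ℝ) * (ε / (8 * C') * a) ≤ C' * (ε / (8 * C') * a) :=
        mul_le_mul_of_nonneg_right (k0.trans hUC) (by positivity)
      have k2 : C' * (ε / (8 * C') * a) = ε * a / 8 := by field_simp
      linarith
    have w4 : (U.card : ℝ) = (U \ U₀).card + U₀.card := by
      have := card_sdiff_add_card_eq_card hU₀
      exact_mod_cast this.symm
    have w5 := sum_sdiff (f := fun z => ((nb G (un P) z).card : ℝ)) hU₀
    have w6 := sum_sdiff (f := fun z => TZ G p r (un P) z) hU₀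
    rw [← w5, ← w6, w4]
    have w7 : (((U \ U₀).card : ℝ) + U₀.card) * (((p : ℝ) + 2) * (1 - ph p r) * a) =
        ((U \ U₀).card : ℝ) * (((p : ℝ) + 2) * (1 - ph p r) * a) +
          U₀.card * (((p : ℝ) + 2) * (1 - ph p r) * a) := add_mul _ _ _
    have w8 : Mz p r a * (∑ z ∈ U \ U₀, TZ G p r (un P) z + ∑ z ∈ U₀, TZ G p r (un P) z) =
        Mz p r a * ∑ z ∈ U \ U₀, TZ G p r (un P) z +
          Mz p r a * ∑ z ∈ U₀, TZ G p r (un P) z := mul_add _ _ _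
    have w9 : s2 p * a * (U₀.card : ℝ) = U₀.card * (s2 p * a) := mul_comm _ _
    rw [w7, w8, w9]
    linarith
  have t7 : (1 : ℝ) / 2 ≤ ((p : ℝ) + 2) * (1 - ph p r) := hφ2.le
  -- SPX multiplied
  have s4 := mul_le_mul_of_nonneg_left s1 hM0
  have s3 : Mz p r a * ∑ L ∈ clq G W (p + 3), min (r : ℝ) (XX G p r a W L) ≤
      Mz p r a * (((clq G (un P) (p + 3)).card : ℝ) * x) +
      Mz p r a * ∑ L ∈ clq G (un P) (p + 3), mm G p r (un P) L -
      Mz p r a * ∑ z ∈ U, TZ G p r (un P) z +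
      Mz p r a * ((r : ℝ) * U.card * (W.card : ℝ) ^ (p + 2)) := by
    refine s4.trans (le_of_eq ?_)
    unfold TZ
    ring
  have s5 := loqFin (((p : ℝ) + 2)) (ph p r) a x U.card
    ((((p + 3) * a + r : ℕ) : ℝ) - W.card) ε _ _ _ _ _ _ _ _ _ _ s3 t1 t2 t3 t4 t5
    t6 hx2 (by linarith) (by positivity) hε.le t7
  linarith

theorem LOG_thm (h1 : GCGStmt) (h2 : MLGStmt) (h3 : EDUStmt) (h4 : SPXStmt) (h5 : ZSMStmt)
    (h6 : TRVStmt) : LOGStmt := by
  intro p r hz C ε hC hε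
  have hmin1 : min (1 / (64 * ((p : ℝ) + 3) ^ 2)) (ε / (16 * (C * ((p : ℝ) + 3) ^ 2))) ≤ 1 := by
    refine (min_le_left _ _).trans ?_
    rw [div_le_one (by positivity)]
    nlinarith [sq_nonneg ((p : ℝ) + 3), Nat.cast_nonneg (α := ℝ) p]
  refine ⟨min (1 / (64 * ((p : ℝ) + 3) ^ 2)) (ε / (16 * (C * ((p : ℝ) + 3) ^ 2))), by positivity,
    hmin1, ?_⟩
  intro C' hC'
  obtain ⟨ez, hez0, hez1, hez⟩ := h5 p r hz (ε / (8 * C')) (by positivity)
  obtain ⟨a₁, ha₁⟩ := hez C hC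
  have hez2 : ez ≤ 1 / 2 := by
    refine hez1.trans ?_
    rw [div_le_div_iff₀ (by positivity) (by norm_num)]
    nlinarith [sq_nonneg ((p : ℝ) + 3), Nat.cast_nonneg (α := ℝ) p]
  have hη : 0 < min 1 (min (ε / 8 / (((p : ℝ) + 3) * (2 * C'))) (ε / 8 / C)) := by positivity
  obtain ⟨ea, hea0, hea⟩ := loqPow' (p + 3) _ hη
  obtain ⟨eb, heb0, heb⟩ := loqPow' (p + 2) _ hη
  obtain ⟨a₂, ha₂⟩ := exists_nat_ge
    (((p : ℝ) + 3) * r * C' * ((p : ℝ) + 4) ^ (p + 2) / (ε / 8))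
  obtain ⟨a₃, ha₃⟩ := exists_nat_ge ((((r : ℝ) + 2 * C') ^ 2 + C' ^ 2) / (ε / 8))
  refine ⟨min ez (min ea eb), by positivity, (min_le_left _ _).trans hez2,
    a₁ + a₂ + a₃ + r + 1, ?_⟩
  intro a ha V _ G e W P U U₀ he he2 hS hU₀ hexc hCB hW hW2
  have he3 : e ≤ ez := he2.trans (min_le_left _ _)
  have he4 : e ≤ ea := he2.trans ((min_le_right _ _).trans (min_le_left _ _))
  have he5 : e ≤ eb := he2.trans ((min_le_right _ _).trans (min_le_right _ _))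
  have he6 : e ≤ 1 := by linarith
  have q2 : (a₂ : ℝ) ≤ a := by exact_mod_cast (show a₂ ≤ a by omega)
  have q3 : (a₃ : ℝ) ≤ a := by exact_mod_cast (show a₃ ≤ a by omega)
  refine logOne h1 h2 h3 h4 h6 p r hz C ε _ C' hε (by positivity) ?_ hC' e _ he hη.le
    (min_le_left _ _) ?_ ?_ (hea e he he6 he4) (heb e he he6 he5) a (by omega) (by omega) ?_ ?_
    G W P U U₀ hU₀ hS hW hW2 ?_
  · have k : min (1 / (64 * ((p : ℝ) + 3) ^ 2)) (ε / (16 * (C * ((p : ℝ) + 3) ^ 2))) *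
        (C * ((p : ℝ) + 3) ^ 2) ≤
        ε / (16 * (C * ((p : ℝ) + 3) ^ 2)) * (C * ((p : ℝ) + 3) ^ 2) :=
      mul_le_mul_of_nonneg_right (min_le_right _ _) (by positivity)
    refine k.trans (le_of_eq ?_)
    field_simp
  · have k : min 1 (min (ε / 8 / (((p : ℝ) + 3) * (2 * C'))) (ε / 8 / C)) *
        (((p : ℝ) + 3) * (2 * C')) ≤
        ε / 8 / (((p : ℝ) + 3) * (2 * C')) * (((p : ℝ) + 3) * (2 * C')) :=
      mul_le_mul_of_nonneg_right ((min_le_right _ _).trans (min_le_left _ _)) (by positivity)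
    refine k.trans (le_of_eq ?_)
    field_simp
  · have k : min 1 (min (ε / 8 / (((p : ℝ) + 3) * (2 * C'))) (ε / 8 / C)) * C ≤
        ε / 8 / C * C :=
      mul_le_mul_of_nonneg_right ((min_le_right _ _).trans (min_le_right _ _)) hC.le
    refine k.trans (le_of_eq ?_)
    field_simp
  · have k := ha₂.trans q2
    rw [div_le_iff₀ (by positivity)] at k
    linarith
  · have k := ha₃.trans q3
    rw [div_le_iff₀ (by positivity)] at k
    linarith
  · intro z hz'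
    obtain ⟨i, hi1, hi2⟩ := hexc z hz'
    exact ha₁ a (by omega) G e _ C' W P U he he3 (min_le_left _ _) hS hCB z
      ((hS.cov z).2 (Or.inl (mem_sdiff.1 hz').1)) i hi1 hi2

end Pool.JB7
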